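import Pool.Agent.H68.TL.Davis
import Pool.Agent.H75.Davis.Chain
import Pool.Agent.H47.CD.RegDef

/-!
# helper63: exactness of the Davis complex with coefficients in `RG Γ D = Γ →₀ D`

Input for B4: chains in `K (RG Γ D)` are the finitely supported `D`-valued chains of the Davis
complex.
-/

namespace Pool.Agent.H63.FC

open Finset Pool.Agent.H75.Davis

set_option linter.unusedSectionVars false

section core

variable {V : Type} [Fintype V] [DecidableEq V] {adj : V → V → Prop} {W : Type} [Group W]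
variable {D : Type} [AddCommGroup D]

/-- finitely supported chains with coefficients in `D` -/
structure Ch (R : RData V adj W) (k : ℕ) (f : Finset V → W → D) : Prop where
  supp : ∀ σ w, f σ w ≠ 0 → Clq adj σ ∧ σ.card = k
  inv : ∀ σ w v, v ∈ σ → f σ (w * R.s v) = f σ w
  fin : {w | ∃ σ, f σ w ≠ 0}.Finite

/-- boundary -/
def bd0 (f : Finset V → W → D) (τ : Finset V) (w : W) : D :=
  ∑ v ∈ univ.filter (· ∉ τ), f (insert v τ) w

lemma Ch.bd0_inv {R : RData V adj W} {k : ℕ} {f : Finset V → W → D} (hf : Ch R k f)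
    (σ : Finset V) (w : W) (v : V) (hv : v ∈ σ) : bd0 f σ (w * R.s v) = bd0 f σ w := by
  unfold bd0
  refine sum_congr rfl fun u _ => hf.inv _ _ _ (mem_insert_of_mem hv)

lemma Ch.bd0_zero {R : RData V adj W} {k : ℕ} {f : Finset V → W → D} (hf : Ch R (k + 1) f)
    (σ : Finset V) (hσ : σ.card ≠ k) (w : W) : bd0 f σ w = 0 := by
  unfold bd0
  refine sum_eq_zero fun u hu => ?_
  by_contra h0
  have h1 := (hf.supp _ _ h0).2
  rw [card_insert_of_notMem (by simpa using hu)] at h1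
  omega

end core

section core2

variable {V : Type} [Fintype V] [LinearOrder V] {adj : V → V → Prop} {W : Type} [Group W]
variable {D : Type} [AddCommGroup D] [Module (ZMod 2) D]

/-- cycles are homologous to cycles supported at the identity -/
lemma core_lin (R : RData V adj W) (hone : R.len 1 = 0) (k : ℕ) (f : Finset V → W → D)
    (hf : Ch R k f) (hcyc : bd0 f = 0) :
    ∃ g : Finset V → W → D, Ch R (k + 1) g ∧ ∀ w, w ≠ 1 → ∀ σ, f σ w = bd0 g σ w := by
  classical
  let _ : Module (ZMod 2)ᵐᵒᵖ D :=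
    Module.compHom D ((RingHom.id (ZMod 2)).fromOpposite fun a b => mul_comm a b)
  have _ : IsCentralScalar (ZMod 2) D := ⟨fun _ _ => rfl⟩
  let A := TrivSqZeroExt (ZMod 2) D
  have hneg : (-1 : A) = 1 := by
    refine TrivSqZeroExt.ext ?_ ?_
    · change (-1 : ZMod 2) = 1
      decide
    · change -(0 : D) = 0
      exact neg_zero
  have hsg : ∀ (v : V) (σ : Finset V), sg A v σ = 1 := by
    intro v σ
    unfold sg
    rw [hneg, one_pow]
  by_cases hV : Nonempty V
  · have hm : ∃ m : W → V, ∀ w, w ≠ 1 → R.D w (m w) := by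
      refine ⟨fun w => if h : w ≠ 1 then (R.D_nonempty w h).choose else Classical.arbitrary V, ?_⟩
      intro w h
      simp only [dif_pos h]
      exact (R.D_nonempty w h).choose_spec
    obtain ⟨m, hm⟩ := hm
    have hb : ∃ n, ∀ w, n < R.len w → ∀ σ, f σ w = 0 := by
      obtain ⟨n, hn⟩ := (hf.fin.image R.len).bddAbove
      refine ⟨n, fun w hw σ => ?_⟩
      by_contra h0
      have := hn ⟨w, ⟨σ, h0⟩, rfl⟩
      omega
    obtain ⟨n, hn⟩ := hb
    have hinr0 : ∀ d : D, (TrivSqZeroExt.inr d : A) ≠ 0 → d ≠ 0 := by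
      intro d h h0
      apply h
      rw [h0]
      exact TrivSqZeroExt.inr_zero _
    have hf' : IsCh R k (fun σ w => (TrivSqZeroExt.inr (f σ w) : A)) := by
      refine ⟨fun σ w h => hf.supp σ w (hinr0 _ h), fun σ w v hv => ?_, ?_⟩
      · rw [hf.inv σ w v hv]
      · refine hf.fin.subset ?_
        rintro w ⟨σ, h⟩
        exact ⟨σ, hinr0 _ h⟩
    have hc' : bd (fun σ w => (TrivSqZeroExt.inr (f σ w) : A)) = 0 := by
      funext τ w
      unfold bd
      have h1 : bd0 f τ w = 0 := by rw [hcyc]; rfl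
      have h2 : ∑ v ∈ univ.filter (· ∉ τ), sg A v τ * (TrivSqZeroExt.inr (f (insert v τ) w) : A)
          = TrivSqZeroExt.inr (bd0 f τ w) := by
        unfold bd0
        rw [← TrivSqZeroExt.inrHom_apply (ZMod 2) D (∑ v ∈ univ.filter (· ∉ τ), f (insert v τ) w),
          map_sum]
        refine sum_congr rfl fun v _ => ?_
        rw [hsg, one_mul]
        rfl
      rw [h2, h1]
      exact TrivSqZeroExt.inr_zero _
    obtain ⟨g, hg, h⟩ := exact_aux m hm hone k n _ hf' hc' (fun w hw σ => by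
      change (TrivSqZeroExt.inr (f σ w) : A) = 0
      rw [hn w hw σ]
      exact TrivSqZeroExt.inr_zero _)
    have hsnd0 : ∀ a : A, a.snd ≠ 0 → a ≠ 0 := by
      intro a h1 h2
      apply h1
      rw [h2]
      rfl
    refine ⟨fun σ w => (g σ w).snd, ⟨fun σ w h1 => hg.supp σ w (hsnd0 _ h1), fun σ w v hv => ?_, ?_⟩,
      fun w hw σ => ?_⟩
    · rw [hg.inv σ w v hv]
    · refine hg.fin.subset ?_
      rintro w ⟨σ, h1⟩
      exact ⟨σ, hsnd0 _ h1⟩
    · have h1 : 0 < R.len w := by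
        rcases Nat.eq_zero_or_pos (R.len w) with h0 | h0
        · exfalso
          obtain ⟨v, hv⟩ := R.D_nonempty w hw
          have := R.len_lt w v hv
          omega
        · exact h0
      have h2 := h w h1 σ
      have h3 := congrArg TrivSqZeroExt.snd h2
      rw [TrivSqZeroExt.snd_inr] at h3
      rw [h3]
      unfold bd bd0
      rw [← TrivSqZeroExt.sndHom_apply (ZMod 2) D, map_sum]
      refine sum_congr rfl fun v _ => ?_
      rw [hsg, one_mul]
      rfl
  · refine ⟨fun _ _ => 0, ⟨fun σ w h => absurd rfl h, fun _ _ _ _ => rfl, by simp⟩,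
      fun w hw σ => ?_⟩
    obtain ⟨v, -⟩ := R.D_nonempty w hw
    exact absurd ⟨v⟩ hV

end core2

section core3

variable {V : Type} [Fintype V] [inst : DecidableEq V] {adj : V → V → Prop} {W : Type} [Group W]
variable {D : Type} [AddCommGroup D] [Module (ZMod 2) D]

/-- cycles are homologous to cycles supported at the identity -/
lemma core (R : RData V adj W) (hone : R.len 1 = 0) (k : ℕ) (f : Finset V → W → D)
    (hf : Ch R k f) (hcyc : bd0 f = 0) :
    ∃ g : Finset V → W → D, Ch R (k + 1) g ∧ ∀ w, w ≠ 1 → ∀ σ, f σ w = bd0 g σ w := by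
  obtain ⟨lo, hlo⟩ : ∃ lo : LinearOrder V, lo.toDecidableEq = inst :=
    ⟨LinearOrder.lift' (Fintype.equivFin V) (Fintype.equivFin V).injective,
      Subsingleton.elim _ _⟩
  subst hlo
  exact core_lin R hone k f hf hcyc

end core3

section main

open Pool.Agent.H68.TL Pool.Agent.H47.CD

variable {V : Type} [Fintype V] [DecidableEq V] {adj : V → V → Prop} {W : Type} [Group W]
variable (R : RData V adj W) (Γ : Subgroup W) (hΓ : ∀ w, w ∈ Γ ↔ ∀ u, R.χ u w = 1)
variable {D : Type} [AddCommGroup D]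

/-- the chain of an equivariant cochain with values in `RG` -/
def toCh (F : W → Finset V → RG Γ D) (σ : Finset V) (w : W) : D := (F w σ).co 1

lemma co_eq {m : ℕ} {F : W → Finset V → RG Γ D} (hF : F ∈ (davis R Γ hΓ).K (RG Γ D) m)
    (x : W) (σ : Finset V) (h : Γ) : (F x σ).co h = toCh Γ F σ (((h⁻¹ : Γ) : W) * x) := by
  unfold toCh
  have h1 : F (h⁻¹ • x) σ = h⁻¹ • F x σ := CC.K_smul hF h⁻¹ x σ
  have h2 : (((h⁻¹ : Γ) : W) * x) = h⁻¹ • x := rfl
  rw [h2, h1, RG.smul_apply]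
  simp

lemma toCh_isCh {m : ℕ} {F : W → Finset V → RG Γ D} (hF : F ∈ (davis R Γ hΓ).K (RG Γ D) m) :
    Ch R m (toCh Γ F) := by
  classical
  have hsupp : ∀ σ w, toCh Γ F σ w ≠ 0 → (davis R Γ hΓ).Clq σ ∧ σ.card = m := by
    intro σ w h
    refine CC.K_supp (x := w) hF (fun h0 => h ?_)
    unfold toCh
    rw [h0]
    rfl
  refine ⟨fun σ w h => hsupp σ w h, fun σ w v hv => ?_, ?_⟩
  · by_cases hσ : (davis R Γ hΓ).Clq σ
    · have h1 : F (w * R.s v) σ = F w σ := CC.K_tau hF hσ hv w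
      unfold toCh
      rw [h1]
    · have h1 : ∀ w, toCh Γ F σ w = 0 := by
        intro w
        by_contra h0
        exact hσ (hsupp σ w h0).1
      rw [h1, h1]
  · let _ : Fintype (CC.Orb W Γ) := fintypeOrb R Γ hΓ
    have hfin : (⋃ p : CC.Orb W Γ × Finset V,
        (fun h : Γ => ((h⁻¹ : Γ) : W) * CC.rv p.1) ''
          ((F (CC.rv p.1) p.2).co.support : Set Γ)).Finite :=
      Set.finite_iUnion fun p => ((F (CC.rv p.1) p.2).co.support.finite_toSet).image _
    refine hfin.subset ?_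
    rintro w ⟨σ, h⟩
    rw [Set.mem_iUnion]
    refine ⟨(CC.orb Γ w, σ), ((davis R Γ hΓ).gg w)⁻¹, ?_, ?_⟩
    · have h1 := co_eq R Γ hΓ hF (CC.rv (CC.orb Γ w)) σ ((davis R Γ hΓ).gg w)⁻¹
      have h2 : (((((davis R Γ hΓ).gg w)⁻¹)⁻¹ : Γ) : W) * CC.rv (CC.orb Γ w) = w := by
        rw [inv_inv]
        exact (davis R Γ hΓ).gg_rv w
      rw [h2] at h1
      simp only [mem_coe, Finsupp.mem_support_iff]
      rw [h1]
      exact h
    · have h2 : (((((davis R Γ hΓ).gg w)⁻¹)⁻¹ : Γ) : W) * CC.rv (CC.orb Γ w) = w := by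
        rw [inv_inv]
        exact (davis R Γ hΓ).gg_rv w
      exact h2

lemma toCh_bd (F : W → Finset V → RG Γ D) :
    bd0 (toCh Γ F) = toCh Γ (CC.bdy F) := by
  funext τ w
  unfold bd0 toCh
  rw [CC.bdy_apply, RG.co_sum, Finsupp.finsetSum_apply]

/-- the equivariant cochain of a finitely supported chain -/
noncomputable def ofCh {k : ℕ} (g : Finset V → W → D) (hg : Ch R k g) (x : W) (σ : Finset V) :
    RG Γ D :=
  RG.mk (Finsupp.ofSupportFinite (fun h : Γ => g σ (((h⁻¹ : Γ) : W) * x)) (by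
    have hinj : Function.Injective (fun h : Γ => ((h⁻¹ : Γ) : W) * x) := by
      intro a b hab
      have h1 : ((a⁻¹ : Γ) : W) = ((b⁻¹ : Γ) : W) := mul_right_cancel hab
      exact inv_injective (Subtype.ext h1)
    refine (hg.fin.preimage (hinj.injOn)).subset ?_
    intro h hh
    exact ⟨σ, hh⟩))

lemma ofCh_co {k : ℕ} (g : Finset V → W → D) (hg : Ch R k g) (x : W) (σ : Finset V) (h : Γ) :
    (ofCh R Γ g hg x σ).co h = g σ (((h⁻¹ : Γ) : W) * x) := rfl

lemma ofCh_mem {k : ℕ} (g : Finset V → W → D) (hg : Ch R k g) :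
    ofCh R Γ g hg ∈ (davis R Γ hΓ).K (RG Γ D) k := by
  refine ⟨fun x σ h => ?_, fun x σ v hσ hv => ?_, fun a x σ => ?_⟩
  · by_contra h0
    apply h
    refine RG.ext (fun b => ?_)
    rw [ofCh_co]
    by_contra h1
    exact h0 (hg.supp _ _ h1)
  · refine RG.ext (fun b => ?_)
    rw [ofCh_co, ofCh_co]
    have h1 : ((b⁻¹ : Γ) : W) * (davis R Γ hΓ).tau v x = (((b⁻¹ : Γ) : W) * x) * R.s v :=
      (mul_assoc _ _ _).symm
    rw [h1, hg.inv _ _ _ hv]
  · refine RG.ext (fun b => ?_)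
    rw [RG.smul_apply, ofCh_co, ofCh_co]
    congr 1
    have h1 : a • x = (a : W) * x := rfl
    rw [h1, mul_inv_rev, inv_inv, ← mul_assoc]
    rfl

/-- if `f = bd0 g` then `F = bd G` -/
lemma bd_ofCh {m k : ℕ} {F : W → Finset V → RG Γ D} (hF : F ∈ (davis R Γ hΓ).K (RG Γ D) m)
    (g : Finset V → W → D) (hg : Ch R k g) (h : ∀ σ w, toCh Γ F σ w = bd0 g σ w) :
    CC.bdy (ofCh R Γ g hg) = F := by
  funext x σ
  refine RG.ext (fun b => ?_)
  rw [CC.bdy_apply, RG.co_sum, Finsupp.finsetSum_apply, co_eq R Γ hΓ hF, h]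
  unfold bd0
  exact sum_congr rfl fun v _ => ofCh_co R Γ g hg x _ b

variable [Module (ZMod 2) D]

lemma s_ne (v : V) : R.s v ≠ 1 := by
  intro h
  have h1 := R.χ_self v
  rw [h, map_one] at h1
  exact absurd h1 (by decide)

/-- exactness of the Davis complex in positive degrees, coefficients `RG Γ D` -/
theorem exb_RG (hone : R.len 1 = 0) (m : ℕ) : (davis R Γ hΓ).Exb (RG Γ D) (m + 1) := by
  intro F hF hbF
  have hf := toCh_isCh R Γ hΓ hF
  have hcyc : bd0 (toCh Γ F) = 0 := by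
    rw [toCh_bd, hbF]
    rfl
  obtain ⟨g, hg, h⟩ := core R hone (m + 1) (toCh Γ F) hf hcyc
  refine ⟨ofCh R Γ g hg, ofCh_mem R Γ hΓ g hg, bd_ofCh R Γ hΓ hF g hg (fun σ w => ?_)⟩
  by_cases hw : w = 1
  · subst hw
    by_cases hσ : σ.Nonempty
    · obtain ⟨v, hv⟩ := hσ
      rw [← hf.inv σ 1 v hv, ← hg.bd0_inv σ 1 v hv, one_mul]
      exact h _ (s_ne R v) σ
    · rw [not_nonempty_iff_eq_empty] at hσ
      subst hσ
      rw [hg.bd0_zero ∅ (by rw [card_empty]; omega) 1]
      by_contra h0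
      have := (hf.supp _ _ h0).2
      rw [card_empty] at this
      omega
  · exact h w hw σ

include R hΓ in
/-- the map `Orb × Γ → W` -/
lemma orb_bij : Function.Bijective (fun p : CC.Orb W Γ × Γ => ((p.2⁻¹ : Γ) : W) * CC.rv p.1) := by
  constructor
  · rintro ⟨q, a⟩ ⟨q', b⟩ h
    have h0 : a⁻¹ • CC.rv q = b⁻¹ • CC.rv q' := h
    have h1 : q = q' := by
      have h2 := congrArg (CC.orb Γ) h0
      rw [CC.orb_smul, CC.orb_smul, CC.orb_rv, CC.orb_rv] at h2
      exact h2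
    subst h1
    have h2 : ((a⁻¹ : Γ) : W) = ((b⁻¹ : Γ) : W) := mul_right_cancel h
    rw [inv_injective (Subtype.ext h2)]
  · intro w
    refine ⟨(CC.orb Γ w, ((davis R Γ hΓ).gg w)⁻¹), ?_⟩
    change (((((davis R Γ hΓ).gg w)⁻¹)⁻¹ : Γ) : W) * CC.rv (CC.orb Γ w) = w
    rw [inv_inv]
    exact (davis R Γ hΓ).gg_rv w

lemma sum_eps [Fintype (CC.Orb W Γ)] {F : W → Finset V → RG Γ D}
    (hF : F ∈ (davis R Γ hΓ).K (RG Γ D) 0) :
    ∑ q : CC.Orb W Γ, RG.eps (F (CC.rv q) ∅) = ∑ᶠ w, toCh Γ F ∅ w := by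
  classical
  have hbij := orb_bij R Γ hΓ
  have h1 : ∑ᶠ w, toCh Γ F ∅ w = ∑ᶠ p : CC.Orb W Γ × Γ,
      toCh Γ F ∅ (((p.2⁻¹ : Γ) : W) * CC.rv p.1) :=
    (finsum_eq_of_bijective _ hbij (fun _ => rfl)).symm
  have hfin : (Function.support (fun p : CC.Orb W Γ × Γ =>
      toCh Γ F ∅ (((p.2⁻¹ : Γ) : W) * CC.rv p.1))).Finite := by
    refine ((toCh_isCh R Γ hΓ hF).fin.preimage (hbij.1.injOn)).subset ?_
    intro p hp
    exact ⟨∅, hp⟩
  rw [h1, finsum_curry _ hfin, finsum_eq_sum_of_fintype]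
  refine sum_congr rfl fun q _ => ?_
  rw [RG.eps_def, Finsupp.sum]
  have h2 : ∀ h : Γ, toCh Γ F ∅ (((h⁻¹ : Γ) : W) * CC.rv q) = (F (CC.rv q) ∅).co h :=
    fun h => (co_eq R Γ hΓ hF (CC.rv q) ∅ h).symm
  simp only [h2]
  symm
  refine finsum_eq_sum_of_support_subset _ ?_
  intro h hh
  simpa using hh

omit [Module (ZMod 2) D] in
lemma finsum_bd0 (two : ∀ a : D, a + a = 0) (g : Finset V → W → D) (hg : Ch R 1 g) :
    ∑ᶠ w, bd0 g ∅ w = 0 := by
  classical
  have hfin : ∀ v : V, (Function.support (g (insert v ∅))).Finite := fun v =>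
    hg.fin.subset (fun w hw => ⟨_, hw⟩)
  have h1 : ∑ᶠ w, bd0 g ∅ w = ∑ v ∈ univ.filter (· ∉ (∅ : Finset V)), ∑ᶠ w, g (insert v ∅) w := by
    unfold bd0
    exact finsum_sum_comm _ _ (fun v _ => hfin v)
  rw [h1]
  refine sum_eq_zero fun v _ => ?_
  rw [finsum_eq_sum _ (hfin v)]
  refine sum_involution (fun w _ => w * R.s v) ?_ ?_ ?_ ?_
  · intro w _
    rw [hg.inv _ w v (mem_insert_self v ∅)]
    exact two _
  · intro w _ _ h
    exact s_ne R v (mul_eq_left.1 h)
  · intro w hw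
    rw [Set.Finite.mem_toFinset] at hw ⊢
    rw [Function.mem_support] at hw ⊢
    rw [hg.inv _ w v (mem_insert_self v ∅)]
    exact hw
  · intro w _
    rw [mul_assoc, R.sq, mul_one]

/-- exactness of the augmented Davis complex in degree zero, coefficients `RG Γ D` -/
theorem ex0_RG [Fintype (CC.Orb W Γ)] (hone : R.len 1 = 0) {F : W → Finset V → RG Γ D}
    (hF : F ∈ (davis R Γ hΓ).K (RG Γ D) 0)
    (h0 : ∑ q : CC.Orb W Γ, RG.eps (F (CC.rv q) ∅) = 0) :
    ∃ G ∈ (davis R Γ hΓ).K (RG Γ D) 1, CC.bdy G = F := by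
  have two : ∀ a : D, a + a = 0 := by
    intro a
    have h1 : (2 : ZMod 2) • a = 0 := by
      rw [show (2 : ZMod 2) = 0 by decide, zero_smul]
    rwa [two_smul] at h1
  have hf := toCh_isCh R Γ hΓ hF
  have hcyc : bd0 (toCh Γ F) = 0 := by
    rw [toCh_bd, CC.bdy_zero_deg _ hF]
    rfl
  obtain ⟨g, hg, h⟩ := core R hone 0 (toCh Γ F) hf hcyc
  refine ⟨ofCh R Γ g hg, ofCh_mem R Γ hΓ g hg, bd_ofCh R Γ hΓ hF g hg (fun σ w => ?_)⟩
  by_cases hw : w = 1
  · subst hw
    by_cases hσ : σ = ∅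
    · subst hσ
      have hff : (Function.support (toCh Γ F ∅)).Finite := hf.fin.subset (fun w hw => ⟨_, hw⟩)
      have hgf : (Function.support (bd0 g ∅)).Finite := by
        refine (hff.union (Set.finite_singleton 1)).subset ?_
        intro w hw
        by_cases hw1 : w = 1
        · right
          exact hw1
        · left
          rw [Function.mem_support] at hw ⊢
          rw [h w hw1 ∅]
          exact hw
      have h1 : ∑ᶠ w, (toCh Γ F ∅ w - bd0 g ∅ w) = 0 := by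
        rw [finsum_sub_distrib hff hgf, ← sum_eps R Γ hΓ hF, h0,
          finsum_bd0 R two g hg, sub_zero]
      have h2 : ∑ᶠ w, (toCh Γ F ∅ w - bd0 g ∅ w) = toCh Γ F ∅ 1 - bd0 g ∅ 1 := by
        refine finsum_eq_single _ 1 (fun w hw => ?_)
        rw [h w hw ∅, sub_self]
      rw [h2] at h1
      exact sub_eq_zero.1 h1
    · have h1 : σ.card ≠ 0 := fun h => hσ (card_eq_zero.1 h)
      rw [hg.bd0_zero σ h1 1]
      by_contra h2
      exact h1 (hf.supp _ _ h2).2
  · exact h w hw σ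

end main

/-- the length of the identity -/
lemma rdata_len_one {V : Type} [Fintype V] [DecidableEq V] (adj : V → V → Prop)
    [DecidableRel adj] (hsymm : ∀ u v, adj u v → adj v u) (hirr : ∀ v, ¬ adj v v) :
    (rdata adj hsymm hirr).len 1 = 0 := CoxeterSystem.length_one _

end Pool.Agent.H63.FC
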